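import Mathlib
import Pool.Agent.H7.REV.Sing

/-!
# The question on revision cardinals: reduction to countable cofinality

Let `E(λ)` be the set of the regular `κ < λ` such that `κ⁺` is not a `λ`-revision cardinal. The
question is whether `E(λ)` is finite for all uncountable `λ`.

* `κ ∈ E(λ)` if and only if `μ ≤ λ < cov(μ, κ⁺, κ⁺, κ)` for some singular cardinal `μ` of
  cofinality `κ`.
* If `E(λ)` is infinite then there is a cardinal `λ' ≤ λ` of countable cofinality such that
  `E(λ) ∩ E(λ')` is infinite. The conjecture is equivalent to its case of countable cofinality, and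
  to the statement that there are no singular cardinals `μ 0 < μ 1 < …` with increasing cofinalities
  and `cov(μ n, κ⁺, κ⁺, κ) > sup μ`, `κ = cf (μ n)`, for all `n`.
-/

set_option autoImplicit false

open Cardinal Ordinal Set Order

universe u

namespace Pool.Agent.Results.MP_629216_lc.CountableCofinality

open Pool.Agent.H7.REV

/-- The statement of Question 1: for every uncountable `lam` the set `Exc lam` is finite. -/
def Question : Prop := ∀ lam : Cardinal.{u}, ℵ₀ < lam → (Exc lam).Finite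

theorem question_iff_cof : Question.{u} ↔
    ∀ lam : Cardinal.{u}, ℵ₀ < lam → lam.ord.cof = ℵ₀ → (Exc lam).Finite := by
  constructor
  · exact fun h lam h1 _ => h lam h1
  · intro h lam h1
    by_contra hinf
    obtain ⟨lam', -, h2, h3, h4, -⟩ := exists_countable_cof h1.le subset_rfl hinf
    exact h4 ((h lam' h2 h3).subset inter_subset_right)

theorem question_iff_seq : Question.{u} ↔
    ¬ ∃ μ : ℕ → Cardinal.{u}, StrictMono μ ∧ StrictMono (fun n => (μ n).ord.cof) ∧
      (∀ n, (μ n).IsSingular) ∧ ∀ n, ⨆ m, μ m < covCof (μ n) := by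
  constructor
  · rintro h ⟨μ, m1, m2, m3, m4⟩
    have hb : BddAbove (range μ) := Cardinal.bddAbove_of_small
    have hlt : ∀ n, μ n < ⨆ m, μ m := fun n =>
      (m1 (Nat.lt_succ_self n)).trans_le (le_ciSup hb (n + 1))
    have h0 : ℵ₀ < ⨆ m, μ m := (m3 0).aleph0_le.trans_lt (hlt 0)
    refine Set.Infinite.mono ?_ (Set.infinite_range_of_injective m2.injective) (h _ h0)
    rintro _ ⟨n, rfl⟩
    exact (mem_exc_iff h0.le).2 ⟨μ n, m3 n, rfl, (hlt n).le, m4 n⟩
  · intro h lam h1
    by_contra hinf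
    obtain ⟨lam', h2, -, -, -, μ, m1, m2, m3, m4⟩ := exists_countable_cof h1.le subset_rfl hinf
    exact h ⟨μ, m1, m2, fun n => (m4 n).1, fun n => by rw [← m3]; exact h2.trans_lt (m4 n).2.2⟩

/-- **Reduction to countable cofinality.** `Exc lam` is the set of the regular `κ < lam` such that
`κ⁺` is not a `lam`-revision cardinal; the question is whether it is finite for all uncountable
`lam`. -/
theorem result :
    (∀ lam κ : Cardinal.{u}, ℵ₀ < lam → (κ ∈ Exc lam ↔
      ∃ μ : Cardinal.{u}, μ.IsSingular ∧ μ.ord.cof = κ ∧ μ ≤ lam ∧ lam < covCof μ)) ∧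
    (∀ lam : Cardinal.{u}, (Exc lam).Infinite →
      ∃ lam' ≤ lam, ℵ₀ < lam' ∧ lam'.ord.cof = ℵ₀ ∧ (Exc lam ∩ Exc lam').Infinite) ∧
    (Question.{u} ↔
      ∀ lam : Cardinal.{u}, ℵ₀ < lam → lam.ord.cof = ℵ₀ → (Exc lam).Finite) ∧
    (Question.{u} ↔
      ¬ ∃ μ : ℕ → Cardinal.{u}, StrictMono μ ∧ StrictMono (fun n => (μ n).ord.cof) ∧
        (∀ n, (μ n).IsSingular) ∧ ∀ n, ⨆ m, μ m < covCof (μ n)) := by
  refine ⟨fun lam κ h => mem_exc_iff h.le, ?_, question_iff_cof, question_iff_seq⟩
  intro lam hinf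
  obtain ⟨κ, hκ⟩ := hinf.nonempty
  obtain ⟨lam', h1, h2, h3, h4, -⟩ :=
    exists_countable_cof (hκ.1.aleph0_le.trans hκ.2.1.le) subset_rfl hinf
  exact ⟨lam', h1, h2, h3, h4⟩

end Pool.Agent.Results.MP_629216_lc.CountableCofinality
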