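import Mathlib
import Pool.Agent.H7.REV.Sing

/-!
# Revision cardinals: limit cardinals and the exceptional set

Let `E(λ)` be the set of the regular `κ < λ` such that `κ⁺` is not a `λ`-revision cardinal. The
question is whether `E(λ)` is finite for all uncountable `λ`.

* Let `χ ≤ λ` be an uncountable limit cardinal. Then `E(λ)` is bounded below `χ` if and only if there
  is `σ < χ` such that for all `θ` with `σ ≤ θ < χ` there is a family of `λ` subsets of `λ` of size
  at most `θ` such that each subset of `λ` of size `θ` is covered by less than `σ` of them. In this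
  case `χ` is a `λ`-revision cardinal; if `2 ^ θ ≤ λ` for all `θ < χ` then this is an equivalence.
* So `E(λ)` is finite if and only if all `χ ≤ λ`, `χ > ℵ₀`, of countable cofinality have this
  property. In particular the conjecture of the question implies that every uncountable limit
  cardinal is a revision cardinal (for strong limit cardinals this is a theorem of Shelah).

The main step (`Cov.uniform`): if `κ`-sets are covered by less than `κ` members of one family
for each regular `κ ≥ σ` then they are covered by less than `σ` members of another one, by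
induction on `κ`: the members needed for a `κ`-set form a set of smaller size, to which the induction
hypothesis applies.
-/

set_option autoImplicit false

open Cardinal Ordinal Set Order

universe u

namespace Pool.Agent.Results.MP_629216_lc.LimitCardinals

open Pool.Agent.H7.REV

/-- The statement of Question 1: for every uncountable `lam` the set `Exc lam` is finite. -/
def Question : Prop := ∀ lam : Cardinal.{u}, ℵ₀ < lam → (Exc lam).Finite

theorem aleph0_le_of_mem {lam κ : Cardinal.{u}} (h : κ ∈ Exc lam) : ℵ₀ ≤ κ := h.1.aleph0_le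

theorem exc_inter {lam : Cardinal.{u}} : Exc lam ∩ Iio lam = Exc lam :=
  inter_eq_left.2 fun _ h => h.2.1

theorem bounded_iff {χ lam : Cardinal.{u}} (h0 : ℵ₀ < χ) (hχ : IsSuccLimit χ) (hl : χ ≤ lam) :
    BoundedIn (Exc lam) χ ↔ UniformlyCovered lam χ := by
  constructor
  · intro h
    obtain ⟨σ, h1, h2, h3, -⟩ := uniform_of_bounded hχ h0 hl h
    exact ⟨σ, h1, two_le h2, h3⟩
  · exact bounded_of_uniform

theorem revision_of_bounded {χ lam : Cardinal.{u}} (h0 : ℵ₀ < χ) (hχ : IsSuccLimit χ)
    (hl : χ ≤ lam) (h : BoundedIn (Exc lam) χ) : IsRevision lam χ := by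
  obtain ⟨σ, h1, h2, -, h3⟩ := uniform_of_bounded hχ h0 hl h
  exact ⟨σ, h1, two_le h2, h3⟩

theorem finite_iff {lam : Cardinal.{u}} : (Exc lam).Finite ↔
    ∀ χ : Cardinal.{u}, ℵ₀ < χ → χ ≤ lam → χ.ord.cof = ℵ₀ → UniformlyCovered lam χ := by
  have h := finite_iff_bounded (E := Exc lam) (fun κ hκ => aleph0_le_of_mem hκ) (χ := lam)
  rw [exc_inter] at h
  rw [h]
  constructor
  · intro h' χ h1 h2 h3
    exact (bounded_iff h1 (singular_of_cof h1 h3).isSuccLimit h2).1 (h' χ h1 h2 h3)
  · intro h' χ h1 h2 h3
    exact (bounded_iff h1 (singular_of_cof h1 h3).isSuccLimit h2).2 (h' χ h1 h2 h3)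

/-- **Limit cardinals and the exceptional set.** `Exc lam` is the set of the regular `κ < lam` such
that `κ⁺` is not a `lam`-revision cardinal; the question is whether it is finite for all uncountable
`lam`. -/
theorem result :
    (∀ lam χ : Cardinal.{u}, ℵ₀ < χ → IsSuccLimit χ → χ ≤ lam →
      (BoundedIn (Exc lam) χ ↔ UniformlyCovered lam χ) ∧
      (BoundedIn (Exc lam) χ → IsRevision lam χ) ∧
      ((∀ θ < χ, 2 ^ θ ≤ lam) → (BoundedIn (Exc lam) χ ↔ IsRevision lam χ))) ∧
    (∀ lam : Cardinal.{u}, (Exc lam).Finite ↔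
      ∀ χ : Cardinal.{u}, ℵ₀ < χ → χ ≤ lam → χ.ord.cof = ℵ₀ → UniformlyCovered lam χ) ∧
    (Question.{u} → ∀ lam χ : Cardinal.{u}, ℵ₀ < χ → IsSuccLimit χ → χ ≤ lam →
      IsRevision lam χ) := by
  refine ⟨?_, fun lam => finite_iff, ?_⟩
  · intro lam χ h0 hχ hl
    exact ⟨bounded_iff h0 hχ hl, revision_of_bounded h0 hχ hl,
      fun hp => ⟨revision_of_bounded h0 hχ hl, bounded_of_revision h0 hl hp⟩⟩
  · intro h lam χ h0 hχ hl
    have hf : (Exc lam ∩ Iio χ).Finite := (h lam (h0.trans_le hl)).subset inter_subset_left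
    refine revision_of_bounded h0 hχ hl ?_
    rcases (Exc lam ∩ Iio χ).eq_empty_or_nonempty with he | hne
    · refine ⟨0, aleph0_pos.trans h0, fun κ hκ hκτ => ?_⟩
      have : κ ∈ Exc lam ∩ Iio χ := ⟨hκ, hκτ⟩
      rw [he] at this
      exact absurd this (notMem_empty κ)
    · obtain ⟨m, hm, hmax⟩ := Set.exists_max_image (Exc lam ∩ Iio χ) id hf hne
      exact ⟨succ m, hχ.succ_lt hm.2, fun κ hκ hκτ => lt_succ_iff.2 (hmax κ ⟨hκ, hκτ⟩)⟩

end Pool.Agent.Results.MP_629216_lc.LimitCardinals
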