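import Mathlib
import Pool.Agent.H7.REV.Sing

/-!
# The exceptional cardinals and the gap between a cardinal and its power

Let `E(λ)` be the set of the regular `κ < λ` such that `κ⁺` is not a `λ`-revision cardinal. Let
`θ = ℵ_o` be the least cardinal with `2 ^ θ > λ`. Each `κ ∈ E(λ)` is the cofinality of `θ` or satisfies
`ℵ_(o + κ) ≤ λ`. So if `E(λ)` is infinite then `ℵ_(o + ω_ω) ≤ λ < 2 ^ θ`: the answer to the question is
yes for all `λ` if `2 ^ θ ≤ ℵ_(o + ω_ω)` for all `θ = ℵ_o`, and without a hypothesis it is yes for all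
`λ` with `χ ≤ λ < ℵ_(o + ω_ω)`, `χ = ℵ_o` a strong limit cardinal.

Proof: let `κ ∈ E(λ)` and let `μ` be the least cardinal with `cov(μ, κ⁺, κ⁺, κ) > λ`. It has cofinality
`κ`, and it is not less than `θ`, since the covering number is at most `2 ^ μ`.
-/

set_option autoImplicit false

open Cardinal Ordinal Set Order

universe u

namespace Pool.Agent.Results.MP_629216_lc.PowerGap

open Pool.Agent.H7.REV

/-- The statement of Question 1: for every uncountable `lam` the set `Exc lam` is finite. -/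
def Question : Prop := ∀ lam : Cardinal.{u}, ℵ₀ < lam → (Exc lam).Finite

/-- If `2 ^ θ ≤ θ ^ (+ω_ω)` for all `θ` then the exceptional sets are finite. -/
theorem question_of_power (h : ∀ o : Ordinal.{u}, 2 ^ (ℵ_ o) ≤ ℵ_ (o + ω_ ω)) :
    Question.{u} := by
  intro lam h0
  by_contra hinf
  obtain ⟨o, h1, h2, h3⟩ := exists_theta h0.le
  exact absurd (h2.trans_le (h o)) (not_lt.2 (le_of_infinite h1 h3 hinf))

/-- **Exceptional cardinals and powers.** `Exc lam` is the set of the regular `κ < lam` such that `κ⁺`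
is not a `lam`-revision cardinal; the question is whether it is finite for all uncountable `lam`. -/
theorem result :
    (∀ lam : Cardinal.{u}, ℵ₀ < lam → ∃ o : Ordinal.{u},
      ℵ_ o ≤ lam ∧ lam < 2 ^ (ℵ_ o) ∧ (∀ θ < ℵ_ o, 2 ^ θ ≤ lam) ∧
      (∀ κ ∈ Exc lam, κ = (ℵ_ o).ord.cof ∨ ℵ_ (o + κ.ord) ≤ lam) ∧
      ((Exc lam).Infinite → ℵ_ (o + ω_ ω) ≤ lam)) ∧
    (∀ (o : Ordinal.{u}) (lam : Cardinal.{u}), (ℵ_ o).IsStrongLimit → ℵ_ o ≤ lam →
      lam < ℵ_ (o + ω_ ω) → (Exc lam).Finite) ∧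
    ((∀ o : Ordinal.{u}, 2 ^ (ℵ_ o) ≤ ℵ_ (o + ω_ ω)) → Question.{u}) := by
  refine ⟨?_, ?_, question_of_power⟩
  · intro lam h0
    obtain ⟨o, h1, h2, h3⟩ := exists_theta h0.le
    exact ⟨o, h1, h2, h3, fun κ hκ => exc_or h1 h3 hκ, le_of_infinite h1 h3⟩
  · intro o lam hs h1 h2
    by_contra hinf
    exact absurd (le_of_infinite h1 (fun θ hθ => (hs.isStrongPrelimit hθ).le.trans h1) hinf)
      (not_le.2 h2)

end Pool.Agent.Results.MP_629216_lc.PowerGap
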