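import Mathlib
import Pool.Agent.H7.REV.Sing

/-!
# Singular revision cardinals

* A singular cardinal `χ ≤ λ` is a `λ`-revision cardinal if and only if the regular cardinals `κ < χ`
  which are the cofinality of some `μ` with `χ ≤ μ ≤ λ < cov(μ, χ, κ⁺, κ)` are bounded in `χ`.
* So the singular cardinal `χ = ℵ_o` and its successor `χ⁺` are `λ`-revision cardinals for all `λ`
  between them and `ℵ_(o + χ)`. (Known was the range up to `ℵ_(o + cf χ)`.) For example, `ℵ_ω` and
  `ℵ_(ω+1)` are `λ`-revision cardinals for all `λ` less than the cardinal `ℵ_(ω_ω)`.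

The main step (`CovG.uniform`): if `κ`-sets are covered by less than `κ` members of one family for each
regular `κ ≥ σ` then they are covered by less than `σ` members of another one, by induction on `κ`: the
members needed for a `κ`-set form a set of smaller size, to which the induction hypothesis applies. The
least `μ` with `cov(μ, χ, κ⁺, κ) > λ` has cofinality `κ`, and there is no such `μ` between `ℵ_o` and
`ℵ_(o + κ)`.
-/

set_option autoImplicit false

open Cardinal Ordinal Set Order

universe u

namespace Pool.Agent.Results.MP_629216_lc.SingularRevision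

open Pool.Agent.H7.REV

/-- **Singular revision cardinals.** -/
theorem result :
    (∀ lam χ : Cardinal.{u}, χ.IsSingular → χ ≤ lam →
      (IsRevision lam χ ↔ BoundedIn (CofIn χ lam) χ)) ∧
    (∀ (o : Ordinal.{u}) (lam : Cardinal.{u}), (ℵ_ o).IsSingular → ℵ_ o ≤ lam →
      lam < ℵ_ (o + ω_ o) → IsRevision lam (ℵ_ o) ∧
        (succ (ℵ_ o) ≤ lam → IsRevision lam (succ (ℵ_ o)))) := by
  refine ⟨?_, ?_⟩
  · intro lam χ hχ hl
    rw [← excIn_eq (hχ.aleph0_le.trans hl)]
    exact revision_iff_bounded hχ hl
  · intro o lam hs h1 h2
    have h := revision_range hs h1 h2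
    exact ⟨h, fun _ => revision_succ hs h⟩

end Pool.Agent.Results.MP_629216_lc.SingularRevision
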